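import Pool.Agent.H61.HB.Stmts

/-!
Board hbg (helper61, MP_91403e_an), row MMB.
-/

set_option autoImplicit false

namespace HB

theorem mmb_sq_nonneg (k : Z2) : 0 ≤ sq k := by unfold sq; positivity

theorem mmb_w_nonneg (s : ℝ) (k : Z2) : 0 ≤ (1 + sq k) ^ s :=
  Real.rpow_nonneg (by have := mmb_sq_nonneg k; linarith) s

theorem mmb_nqS_nonneg (s : ℝ) (f : Z2 → ℂ) : 0 ≤ nqS s f :=
  tsum_nonneg fun k => mul_nonneg (mmb_w_nonneg s k) (sq_nonneg _)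

theorem mmb_mono (r s : ℝ) (f : Z2 → ℂ) (hrs : r ≤ s) (h : MemS s f) :
    MemS r f ∧ nqS r f ≤ nqS s f := by
  have hle : ∀ k, (1 + sq k) ^ r * ‖f k‖ ^ 2 ≤ (1 + sq k) ^ s * ‖f k‖ ^ 2 := by
    intro k
    apply mul_le_mul_of_nonneg_right _ (sq_nonneg _)
    exact Real.rpow_le_rpow_of_exponent_le (by have := mmb_sq_nonneg k; linarith) hrs
  have h1 : MemS r f :=
    Summable.of_nonneg_of_le (fun k => mul_nonneg (mmb_w_nonneg r k) (sq_nonneg _)) hle h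
  exact ⟨h1, Summable.tsum_le_tsum hle h1 h⟩

theorem mmb_bound (s : ℝ) (f g h : Z2 → ℂ) (hf : MemS s f) (hg : MemS s g)
    (hh : ∀ k, ‖h k‖ ≤ ‖f k‖ + ‖g k‖) :
    MemS s h ∧ nqS s h ≤ 2 * nqS s f + 2 * nqS s g := by
  have hle : ∀ k, (1 + sq k) ^ s * ‖h k‖ ^ 2 ≤
      2 * ((1 + sq k) ^ s * ‖f k‖ ^ 2) + 2 * ((1 + sq k) ^ s * ‖g k‖ ^ 2) := by
    intro k
    have h1 : ‖h k‖ ^ 2 ≤ 2 * ‖f k‖ ^ 2 + 2 * ‖g k‖ ^ 2 := by
      have h2 := hh k
      have h3 := norm_nonneg (h k)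
      have h4 : ‖h k‖ ^ 2 ≤ (‖f k‖ + ‖g k‖) ^ 2 := pow_le_pow_left₀ h3 h2 2
      nlinarith [sq_nonneg (‖f k‖ - ‖g k‖)]
    have h5 := mul_le_mul_of_nonneg_left h1 (mmb_w_nonneg s k)
    linarith
  have hsum : Summable fun k => 2 * ((1 + sq k) ^ s * ‖f k‖ ^ 2) +
      2 * ((1 + sq k) ^ s * ‖g k‖ ^ 2) := (hf.mul_left 2).add (hg.mul_left 2)
  have hm : MemS s h :=
    Summable.of_nonneg_of_le (fun k => mul_nonneg (mmb_w_nonneg s k) (sq_nonneg _)) hle hsum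
  refine ⟨hm, ?_⟩
  calc nqS s h ≤ ∑' k, (2 * ((1 + sq k) ^ s * ‖f k‖ ^ 2) + 2 * ((1 + sq k) ^ s * ‖g k‖ ^ 2)) :=
        Summable.tsum_le_tsum hle hm hsum
    _ = 2 * nqS s f + 2 * nqS s g := by
        rw [Summable.tsum_add (hf.mul_left 2) (hg.mul_left 2), tsum_mul_left, tsum_mul_left]
        rfl

theorem mmb_thm : MMBStmt := by
  refine ⟨mmb_nqS_nonneg, mmb_mono, ?_, ?_, ?_, ?_⟩
  · intro s f g hf hg
    have h1 := mmb_bound s f g (f - g) hf hg (fun k => norm_sub_le (f k) (g k))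
    have h2 := mmb_bound s f g (f + g) hf hg (fun k => norm_add_le (f k) (g k))
    exact ⟨h1.1, h2.1, h1.2, h2.2⟩
  · intro s u
    exact Finset.sum_nonneg fun j _ => mmb_nqS_nonneg s (u j)
  · intro r s u hrs h
    exact ⟨fun j => (mmb_mono r s (u j) hrs (h j)).1,
      Finset.sum_le_sum fun j _ => (mmb_mono r s (u j) hrs (h j)).2⟩
  · intro s u v hu hv
    have h1 : ∀ j, MemS s ((u - v) j) ∧ nqS s ((u - v) j) ≤ 2 * nqS s (u j) + 2 * nqS s (v j) :=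
      fun j => mmb_bound s (u j) (v j) ((u - v) j) (hu j) (hv j)
        (fun k => norm_sub_le (u j k) (v j k))
    have h2 : ∀ j, MemS s ((u + v) j) ∧ nqS s ((u + v) j) ≤ 2 * nqS s (u j) + 2 * nqS s (v j) :=
      fun j => mmb_bound s (u j) (v j) ((u + v) j) (hu j) (hv j)
        (fun k => norm_add_le (u j k) (v j k))
    have h3 : (2 * nsq s u + 2 * nsq s v : ℝ) = ∑ j, (2 * nqS s (u j) + 2 * nqS s (v j)) := by
      unfold nsq
      rw [Finset.sum_add_distrib, Finset.mul_sum, Finset.mul_sum]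
    refine ⟨fun j => (h1 j).1, fun j => (h2 j).1, ?_, ?_⟩
    · rw [h3]
      exact Finset.sum_le_sum fun j _ => (h1 j).2
    · rw [h3]
      exact Finset.sum_le_sum fun j _ => (h2 j).2

end HB
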